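import Pool.Agent.helper77.BND.SpecY

/-!
# Row bnd:PTL (MP_376aaf_an): a path of idempotents is a conjugation, local form
The proof follows row pv:PTH (helper42).
-/

set_option autoImplicit false

open scoped Matrix Topology
open Filter

namespace Pool.Agent.BND

open Pool.Agent.CZ Pool.Agent.PV

/-- close idempotents are conjugate, in a Banach algebra -/
private theorem PTL_close {B : Type} [NormedRing B] [CompleteSpace B] (F G : B) (_hF : F * F = F) (hG : G * G = G)
    (h : ‖F - G‖ * ‖2 * G - 1‖ < 1) :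
    ∃ U' : B, U' * (F * G + (1 - F) * (1 - G)) = 1 ∧ (F * G + (1 - F) * (1 - G)) * U' = 1 := by
  have e1 : F * G + (1 - F) * (1 - G) - 1 = (F - G) * (2 * G - 1) := by
    have e2 : (F - G) * (2 * G - 1) = 2 * (F * G) - F - 2 * (G * G) + G := by noncomm_ring
    rw [e2, hG]
    noncomm_ring
  have e3 : ‖(1 : B) - (F * G + (1 - F) * (1 - G))‖ < 1 := by
    rw [← norm_neg, neg_sub, e1]
    exact lt_of_le_of_lt (norm_mul_le _ _) h
  have hu := isUnit_one_sub_of_norm_lt_one e3
  rw [sub_sub_cancel] at hu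
  obtain ⟨u, hu'⟩ := hu
  refine ⟨((u⁻¹ : Bˣ) : B), ?_, ?_⟩
  · rw [← hu']
    exact u.inv_mul
  · rw [← hu']
    exact u.mul_inv

private theorem PTL_pi {B : Type} [Ring B] (e : B) (he : e * e = e) : e * e + (1 - e) * (1 - e) = 1 := by
  have e4 : e * e + (1 - e) * (1 - e) = 1 - e - e + (e * e + e * e) := by noncomm_ring
  rw [e4, he]
  abel

private theorem PTL_comm {B : Type} [Ring B] (F G : B) (hF : F * F = F) (hG : G * G = G) :
    F * (F * G + (1 - F) * (1 - G)) = (F * G + (1 - F) * (1 - G)) * G := by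
  have e1 : F * (F * G + (1 - F) * (1 - G)) = F * F * G + (F - F * F) * (1 - G) := by noncomm_ring
  have e2 : (F * G + (1 - F) * (1 - G)) * G = F * (G * G) + (1 - F) * (G - G * G) := by noncomm_ring
  rw [e1, e2, hF, hG]
  simp

/-- cut off -/
private noncomputable def PTL_a (N k : ℕ) : unitInterval :=
  ⟨min 1 ((k : ℝ) / N), by
    constructor
    · exact le_min zero_le_one (by positivity)
    · exact min_le_left _ _⟩

private noncomputable def PTL_m (a : unitInterval) : C(unitInterval, unitInterval) :=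
  ⟨fun t => min t a, continuous_id.min continuous_const⟩

private theorem PTL_dist (t a b : unitInterval) : dist (min t a) (min t b) ≤ dist a b := by
  have h : ∀ x y : unitInterval, ((min x y : unitInterval) : ℝ) = min (x : ℝ) y := by
    intro x y
    rcases le_total x y with hxy | hxy
    · rw [min_eq_left hxy, min_eq_left (show (x : ℝ) ≤ y from hxy)]
    · rw [min_eq_right hxy, min_eq_right (show (y : ℝ) ≤ x from hxy)]
  rw [Subtype.dist_eq, Subtype.dist_eq, Real.dist_eq, Real.dist_eq, h, h]
  have := abs_min_sub_min_le_max (t : ℝ) a t b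
  rw [sub_self, abs_zero, max_eq_right (abs_nonneg _)] at this
  exact this

theorem PTL : PTL_stmt := by
  intro R _ _ _ E hE
  obtain ⟨M, hM⟩ : ∃ M : ℝ, M = 2 * ‖E‖ + ‖(1 : C(unitInterval, R))‖ := ⟨_, rfl⟩
  have hM0 : 0 ≤ M := by rw [hM]; positivity
  obtain ⟨ε, hε⟩ : ∃ ε : ℝ, ε = 1 / (M + 1) / 2 := ⟨_, rfl⟩
  have hε0 : 0 < ε := by rw [hε]; positivity
  have hεM : ε * M < 1 := by
    rw [hε]
    have e1 : 1 / (M + 1) / 2 * M = M / (2 * (M + 1)) := by field_simp
    rw [e1, div_lt_one (by positivity)]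
    linarith
  have hu : UniformContinuous E := CompactSpace.uniformContinuous_of_continuous E.continuous
  obtain ⟨δ, hδ, hE2⟩ := Metric.uniformContinuous_iff.1 hu ε hε0
  obtain ⟨n, hn⟩ := exists_nat_one_div_lt hδ
  obtain ⟨N, hN⟩ : ∃ N : ℕ, N = n + 1 := ⟨_, rfl⟩
  have hN0 : (0 : ℝ) < N := by rw [hN]; positivity
  have hNδ : 1 / (N : ℝ) < δ := by
    rw [hN]
    push_cast
    exact hn
  have hEE : E * E = E := by
    ext t
    exact hE t
  -- the induction
  have key : ∀ k : ℕ, ∃ W W' : C(unitInterval, R), W 0 = 1 ∧ W' * W = 1 ∧ W * W' = 1 ∧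
      (∀ t, E (min t (PTL_a N k)) * W t = W t * E 0) ∧
      ∀ (R' : Type) [Ring R'] (π : R →+* R'), (∀ t, π (E t) = π (E 0)) → ∀ t, π (W t) = 1 ∧ π (W' t) = 1 := by
    intro k
    induction k with
    | zero =>
      refine ⟨1, 1, rfl, mul_one _, mul_one _, fun t => ?_, fun R' _ π _ t => ⟨π.map_one, π.map_one⟩⟩
      have e1 : min t (PTL_a N 0) = 0 := by
        have : PTL_a N 0 = 0 := by
          apply Subtype.ext
          show min 1 (((0 : ℕ) : ℝ) / N) = 0
          rw [Nat.cast_zero, zero_div]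
          norm_num
        rw [this]
        exact min_eq_right t.2.1
      rw [e1]
      show E 0 * 1 = 1 * E 0
      rw [mul_one, one_mul]
    | succ k ih =>
      obtain ⟨W, W', h0, h1, h2, h3, h4⟩ := ih
      obtain ⟨F, hF⟩ : ∃ F : C(unitInterval, R), F = E.comp (PTL_m (PTL_a N (k + 1))) := ⟨_, rfl⟩
      obtain ⟨G, hG⟩ : ∃ G : C(unitInterval, R), G = E.comp (PTL_m (PTL_a N k)) := ⟨_, rfl⟩
      have hFt : ∀ t, F t = E (min t (PTL_a N (k + 1))) := fun t => by rw [hF]; rfl
      have hGt : ∀ t, G t = E (min t (PTL_a N k)) := fun t => by rw [hG]; rfl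
      have hFF : F * F = F := by
        ext t
        rw [ContinuousMap.mul_apply, hFt, hE]
      have hGG : G * G = G := by
        ext t
        rw [ContinuousMap.mul_apply, hGt, hE]
      have hGn : ‖G‖ ≤ ‖E‖ := by
        rw [ContinuousMap.norm_le _ (norm_nonneg _)]
        intro t
        rw [hGt]
        exact ContinuousMap.norm_coe_le_norm E _
      have hab : dist (PTL_a N (k + 1)) (PTL_a N k) < δ := by
        refine lt_of_le_of_lt ?_ hNδ
        rw [Subtype.dist_eq, Real.dist_eq]
        show |min 1 (((k + 1 : ℕ) : ℝ) / N) - min 1 ((k : ℝ) / N)| ≤ 1 / N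
        have := abs_min_sub_min_le_max (1 : ℝ) (((k + 1 : ℕ) : ℝ) / N) 1 ((k : ℝ) / N)
        rw [sub_self, abs_zero, max_eq_right (abs_nonneg _)] at this
        refine this.trans (le_of_eq ?_)
        have e1 : ((k + 1 : ℕ) : ℝ) / N - (k : ℝ) / N = 1 / N := by
          push_cast
          ring
        rw [e1, abs_of_pos (by positivity)]
      have hFG : ‖F - G‖ ≤ ε := by
        rw [ContinuousMap.norm_le _ hε0.le]
        intro t
        rw [ContinuousMap.sub_apply, hFt, hGt, ← dist_eq_norm]
        exact (hE2 (lt_of_le_of_lt (PTL_dist t _ _) hab)).le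
      have hMG : ‖2 * G - 1‖ ≤ M := by
        rw [hM, two_mul]
        calc ‖G + G - 1‖ ≤ ‖G + G‖ + ‖(1 : C(unitInterval, R))‖ := norm_sub_le _ _
          _ ≤ 2 * ‖E‖ + ‖(1 : C(unitInterval, R))‖ := by
            have := norm_add_le G G
            linarith
      have hlt : ‖F - G‖ * ‖2 * G - 1‖ < 1 :=
        lt_of_le_of_lt (mul_le_mul hFG hMG (norm_nonneg _) hε0.le) hεM
      obtain ⟨U', hU1, hU2⟩ := PTL_close F G hFF hGG hlt
      have hc := PTL_comm F G hFF hGG
      obtain ⟨U, hU⟩ : ∃ U : C(unitInterval, R), U = F * G + (1 - F) * (1 - G) := ⟨_, rfl⟩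
      rw [← hU] at hU1 hU2 hc
      refine ⟨U * W, W' * U', ?_, ?_, ?_, ?_, ?_⟩
      · rw [ContinuousMap.mul_apply, h0, mul_one, hU]
        have e1 : min (0 : unitInterval) (PTL_a N (k + 1)) = 0 := min_eq_left (PTL_a N (k + 1)).2.1
        have e2 : min (0 : unitInterval) (PTL_a N k) = 0 := min_eq_left (PTL_a N k).2.1
        show F 0 * G 0 + (1 - F 0) * (1 - G 0) = 1
        rw [hFt, hGt, e1, e2]
        have e3 := hE 0
        have e4 : E 0 * E 0 + (1 - E 0) * (1 - E 0) = 1 - E 0 - E 0 + (E 0 * E 0 + E 0 * E 0) := by noncomm_ring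
        rw [e4, e3]
        abel
      · rw [mul_assoc, ← mul_assoc U', hU1, one_mul, h1]
      · rw [mul_assoc, ← mul_assoc W, h2, one_mul, hU2]
      · intro t
        have hct := congrArg (fun f : C(unitInterval, R) => f t) hc
        simp only [ContinuousMap.mul_apply] at hct
        rw [hFt, hGt] at hct
        rw [ContinuousMap.mul_apply, ← mul_assoc, hct, mul_assoc, h3, mul_assoc]
      · intro R' _ π hπ t
        obtain ⟨hw1, hw2⟩ := h4 R' π hπ t
        have hUt : π (U t) = 1 := by
          rw [hU]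
          show π (F t * G t + (1 - F t) * (1 - G t)) = 1
          rw [map_add, map_mul, map_mul, map_sub, map_sub, map_one, hFt, hGt, hπ, hπ (min t (PTL_a N k))]
          refine PTL_pi _ ?_
          rw [← map_mul, hE]
        have hU't : π (U' t) = 1 := by
          have e5 := congrArg (fun f : C(unitInterval, R) => π (f t)) hU1
          simp only [ContinuousMap.mul_apply, map_mul, hUt, mul_one] at e5
          rw [e5]
          show π 1 = 1
          exact map_one π
        rw [ContinuousMap.mul_apply, ContinuousMap.mul_apply, map_mul, map_mul, hUt, hU't, hw1, hw2, mul_one]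
        exact ⟨rfl, rfl⟩
  obtain ⟨W, W', h0, h1, h2, h3, h4⟩ := key N
  refine ⟨W, W', h0, fun t => ⟨?_, ?_, ?_⟩, h4⟩
  · exact congrArg (fun f : C(unitInterval, R) => f t) h1
  · exact congrArg (fun f : C(unitInterval, R) => f t) h2
  · have e1 : PTL_a N N = 1 := by
      apply Subtype.ext
      show min 1 ((N : ℝ) / N) = 1
      rw [div_self hN0.ne', min_self]
    have e2 : min t (PTL_a N N) = t := by
      rw [e1]
      exact min_eq_left t.2.2
    have := h3 t
    rw [e2] at this
    exact this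

end Pool.Agent.BND
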