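import Pool.Agent.helper53.BND.SpecT

/-!
# Row bnd:TBI (MP_376aaf_an): invariant states and bounded Birkhoff sums
-/

set_option autoImplicit false

open scoped Topology
open Finset Filter

namespace Pool.Agent.BND

open Pool.Agent.CZ Pool.Agent.PV Pool.Agent.PVH

/-- composition with a power of a homeomorphism -/
private def TBI_c {X : Type} [TopologicalSpace X] (α : X ≃ₜ X) (f : C(X, ℝ)) (j : ℕ) : C(X, ℝ) :=
  ⟨fun y => f ((α ^ j) y), f.continuous.comp (α ^ j).continuous⟩

private theorem TBI_inv {X : Type} [TopologicalSpace X] (α : X ≃ₜ X) (φ : InvSt α) (f : C(X, ℝ)) (j : ℕ) :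
    φ.φ (TBI_c α f j) = φ.φ f := by
  induction j with
  | zero =>
    have : TBI_c α f 0 = f := by
      ext y
      rfl
    rw [this]
  | succ j ih =>
    have h1 := φ.inv (TBI_c α f j)
    rw [← ih, ← h1]
    refine congrArg φ.φ ?_
    ext y
    show f ((α ^ (j + 1)) y) = f ((α ^ j) (α y))
    rw [pow_succ]
    rfl

theorem TBI : TBI_stmt := by
  intro X _ α φ f R D h
  have key : ∀ n : ℕ, (n : ℝ) * φ.φ f ≤ n * R + D := by
    intro n
    have h1 : φ.φ (∑ j ∈ range n, TBI_c α f j) = n * φ.φ f := by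
      rw [map_sum]
      simp only [TBI_inv, sum_const, card_range, nsmul_eq_mul]
    have h2 : 0 ≤ φ.φ (((n : ℝ) * R + D) • (1 : C(X, ℝ)) - ∑ j ∈ range n, TBI_c α f j) := by
      refine φ.nonneg _ ?_
      intro y
      have h3 := h y n
      have h4 : (∑ j ∈ range n, TBI_c α f j) y = ∑ j ∈ range n, f ((α ^ j) y) := by
        rw [ContinuousMap.sum_apply]
        rfl
      show 0 ≤ ((n : ℝ) * R + D) • (1 : ℝ) - (∑ j ∈ range n, TBI_c α f j) y
      rw [h4, smul_eq_mul, mul_one]
      linarith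
    rw [map_sub, h1, map_smul, φ.one, smul_eq_mul, mul_one] at h2
    linarith
  by_contra hc
  push Not at hc
  obtain ⟨n, hn⟩ := exists_nat_gt (D / (φ.φ f - R))
  have h1 := key n
  have h2 : 0 < φ.φ f - R := by linarith
  rw [div_lt_iff₀ h2] at hn
  linarith

end Pool.Agent.BND
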